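import Mathlib

/-!
# Del Pezzo surfaces of degree four over the rationals, their function fields and the function
fields of their symmetric powers
-/

open MvPolynomial

namespace Pool.Agent.H48.SymDP

/-- A smooth complete intersection `X = {q 0 = q 1 = 0}` of two quadrics in the projective space
`P ^ 4` over `ℚ`: a del Pezzo surface of degree four. -/
structure DelPezzoFour where
  /-- the two quadratic forms -/
  q : Fin 2 → MvPolynomial (Fin 5) ℚ
  isHomogeneous : ∀ i, (q i).IsHomogeneous 2
  smooth : ∀ p : Fin 5 → AlgebraicClosure ℚ, p ≠ 0 → (∀ i, aeval p (q i) = 0) →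
    LinearIndependent (AlgebraicClosure ℚ)
      (fun (i : Fin 2) (j : Fin 5) => aeval p (pderiv j (q i)))

/-- `K` is a purely transcendental extension of `ℚ` of degree `n`. -/
def IsPurelyTranscendental (n : ℕ) (K : Type) [Field K] [Algebra ℚ K] : Prop :=
  Nonempty (K ≃ₐ[ℚ] FractionRing (MvPolynomial (Fin n) ℚ))

namespace DelPezzoFour

/-- `K` is the function field of the `d`-th power `X ^ d`: it is generated over `ℚ` by the
(ratios of the) homogeneous coordinates of `d` points `pt i` of `X`, and its transcendence degree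
is `2 d`, the dimension of `X ^ d`. -/
structure PowerField (X : DelPezzoFour) (d : ℕ) (K : Type) [Field K] [Algebra ℚ K] where
  /-- the `d` generic points of `X`, in homogeneous coordinates -/
  pt : Fin d → Fin 5 → K
  pt_ne_zero : ∀ i, pt i ≠ 0
  pt_mem : ∀ i j, aeval (pt i) (X.q j) = 0
  adjoin_eq_top : IntermediateField.adjoin ℚ {c : K | ∃ i a b, c = pt i a / pt i b} = ⊤
  trdeg_eq : Algebra.trdeg ℚ K = ((2 * d : ℕ) : Cardinal)

/-- `X` is rational: its function field is purely transcendental of degree two. -/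
def Rational (X : DelPezzoFour) : Prop :=
  ∃ (K : Type) (_ : Field K) (_ : Algebra ℚ K),
    Nonempty (X.PowerField 1 K) ∧ IsPurelyTranscendental 2 K

/-- `X` is unirational: its function field embeds in a purely transcendental extension. -/
def Unirational (X : DelPezzoFour) : Prop :=
  ∃ (K : Type) (_ : Field K) (_ : Algebra ℚ K) (m : ℕ),
    Nonempty (X.PowerField 1 K) ∧ Nonempty (K →ₐ[ℚ] FractionRing (MvPolynomial (Fin m) ℚ))

/-- The symmetric power `X ^ d / S_d` is rational: the field of invariants of the symmetric group,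
acting on the function field of `X ^ d` by permuting the `d` generic points, is purely
transcendental of degree `2 d`. -/
def SymRational (X : DelPezzoFour) (d : ℕ) : Prop :=
  ∃ (K : Type) (_ : Field K) (_ : Algebra ℚ K) (P : X.PowerField d K)
    (ρ : Equiv.Perm (Fin d) →* (K ≃ₐ[ℚ] K)),
    (∀ σ i a b, ρ σ (P.pt i a / P.pt i b) = P.pt (σ i) a / P.pt (σ i) b) ∧
    IsPurelyTranscendental (2 * d) (IntermediateField.fixedField ρ.range)

end DelPezzoFour

/-- `X₁ X₂ = X₃ X₀`, `3 X₄² + X₃² - 6 X₃ X₀ - 4 (X₁ + X₂) X₀ + 21 X₀² = 0`; in the chart `X₀ = 1`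
with `s = X₁`, `t = X₂`, `e = X₄` this is `3 e² + (s t)² - 6 s t - 4 (s + t) + 21 = 0`. -/
noncomputable def q₀ : Fin 2 → MvPolynomial (Fin 5) ℚ :=
  ![X 1 * X 2 - X 3 * X 0,
    3 * X 4 ^ 2 + X 3 ^ 2 - 6 * X 3 * X 0 - 4 * (X 1 + X 2) * X 0 + 21 * X 0 ^ 2]

end Pool.Agent.H48.SymDP
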